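import Mathlib

namespace Pool.Agent.Results.MP_ace4dd_an.NotMonotone

open Set Filter Topology

/-- `f` is unimodal on `[-1,1]` with turning point `c` -/
def Unimodal (f : ℝ → ℝ) (c : ℝ) : Prop :=
  c ∈ Ioo (-1 : ℝ) 1 ∧ MapsTo f (Icc (-1) 1) (Icc (-1) 1) ∧ ContinuousOn f (Icc (-1) 1) ∧
    f (-1) = -1 ∧ f 1 = -1 ∧ StrictMonoOn f (Icc (-1) c) ∧ StrictAntiOn f (Icc c 1)

/-- the `i`-th coefficient of the kneading sequence of `f` (turning point `c`) is `s` -/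
def Coef (f : ℝ → ℝ) (c : ℝ) (i : ℕ) (s : SignType) : Prop :=
  ∀ᶠ y in 𝓝[<] (f c), SignType.sign (deriv f^[i + 1] y) = s

/-- `ν(f) < ν(g)` lexicographically (both with turning point `c`) -/
def KLt (f g : ℝ → ℝ) (c : ℝ) : Prop :=
  ∃ j, (∀ i < j, ∃ s, Coef f c i s ∧ Coef g c i s) ∧ ∃ s t, s < t ∧ Coef f c j s ∧ Coef g c j t

/-- the quadratic family -/
def quad (μ x : ℝ) : ℝ := (μ - 1) - μ * x ^ 2

noncomputable def eta (b D x : ℝ) : ℝ := b * ((1 - x ^ 2) * (x ^ 2 / (D + x ^ 2)))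
noncomputable def gg (b D μ x : ℝ) : ℝ := (μ - 1) - μ * (x ^ 2 + eta b D x)
noncomputable def ww (D x : ℝ) : ℝ := (1 - x ^ 2) * D / (D + x ^ 2) ^ 2 - x ^ 2 / (D + x ^ 2)

section
variable {b D μ : ℝ}

lemma eta_deriv (hD : 0 < D) (x : ℝ) : HasDerivAt (eta b D) (b * (2 * x * ww D x)) x := by
  have h1 : HasDerivAt (fun x : ℝ => x ^ 2) (2 * x) x := by simpa using hasDerivAt_pow 2 x
  have hne : D + x ^ 2 ≠ 0 := by positivity
  have := ((h1.const_sub 1).mul (h1.div (h1.const_add D) hne)).const_mul b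
  refine HasDerivAt.congr_deriv this ?_
  simp only [ww, Pi.div_apply]
  field_simp
  ring

lemma gg_deriv (hD : 0 < D) (x : ℝ) :
    HasDerivAt (gg b D μ) (-(μ * (2 * x * (1 + b * ww D x)))) x := by
  have h1 : HasDerivAt (fun x : ℝ => x ^ 2) (2 * x) x := by simpa using hasDerivAt_pow 2 x
  have := ((h1.add (eta_deriv (b := b) hD x)).const_mul μ).const_sub (μ - 1)
  refine HasDerivAt.congr_deriv this ?_
  ring

lemma phi_mem (hD : 0 < D) (x : ℝ) : x ^ 2 / (D + x ^ 2) ∈ Icc (0 : ℝ) 1 :=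
  ⟨by positivity, by rw [div_le_one (by positivity)]; linarith⟩

lemma ww_ge (hD : 0 < D) (x : ℝ) : -2 ≤ ww D x := by
  have h1 := (phi_mem hD x).2
  have h2 : -1 ≤ (1 - x ^ 2) * D / (D + x ^ 2) ^ 2 := by
    rw [le_div_iff₀ (by positivity)]
    nlinarith [sq_nonneg (x ^ 2), mul_nonneg hD.le (sq_nonneg x), sq_nonneg D]
  unfold ww; linarith

lemma diff (hD : 0 < D) (x y : ℝ) : gg b D μ x - gg b D μ y = μ * ((y ^ 2 - x ^ 2) *
    (1 + b * ((D - D * (x ^ 2 + y ^ 2) - x ^ 2 * y ^ 2) / ((D + x ^ 2) * (D + y ^ 2))))) := by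
  have h1 : D + x ^ 2 ≠ 0 := by positivity
  have h2 : D + y ^ 2 ≠ 0 := by positivity
  unfold gg eta; field_simp; ring

lemma W_ge (hD : 0 < D) (x y : ℝ) :
    -1 ≤ (D - D * (x ^ 2 + y ^ 2) - x ^ 2 * y ^ 2) / ((D + x ^ 2) * (D + y ^ 2)) := by
  rw [le_div_iff₀ (by positivity)]; nlinarith [sq_nonneg D]

lemma W_le (hD : 0 < D) (hD1 : D ≤ 1 / 100) {x y : ℝ} (hx : 36 / 100 ≤ x ^ 2)
    (hy : 36 / 100 ≤ y ^ 2) :
    (D - D * (x ^ 2 + y ^ 2) - x ^ 2 * y ^ 2) / ((D + x ^ 2) * (D + y ^ 2)) ≤ 0 := by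
  apply div_nonpos_of_nonpos_of_nonneg _ (by positivity)
  nlinarith [mul_nonneg hD.le (add_nonneg (sq_nonneg x) (sq_nonneg y))]

lemma lt_of_sq (hb : b ∈ Ioc (0 : ℝ) (1 / 100)) (hD : 0 < D) (hμ : 0 < μ) {x y : ℝ}
    (h : x ^ 2 < y ^ 2) : gg b D μ y < gg b D μ x := by
  have := W_ge hD x y
  rw [← sub_pos, diff hD]
  exact mul_pos hμ (mul_pos (by linarith) (by nlinarith [hb.1, hb.2]))

lemma gg_zero : gg b D μ 0 = μ - 1 := by simp [gg, eta]
lemma gg_one : gg b D μ 1 = -1 := by simp [gg, eta]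
lemma gg_neg_one : gg b D μ (-1) = -1 := by simp [gg, eta]

lemma gg_cont (hD : 0 < D) : Continuous (gg b D μ) :=
  continuous_iff_continuousAt.mpr fun x => (gg_deriv hD x).continuousAt

lemma maps (hb : b ∈ Ioc (0 : ℝ) (1 / 100)) (hD : 0 < D) (hμ : μ ∈ Ioc (0 : ℝ) 2) :
    MapsTo (gg b D μ) (Icc (-1) 1) (Icc (-1) 1) := by
  intro x hx
  have h1 : x ^ 2 ≤ 1 := by nlinarith [hx.1, hx.2]
  constructor
  · rcases h1.eq_or_lt with h | h
    · simp [gg, eta, h]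
    · have := lt_of_sq hb hD hμ.1 (x := x) (y := 1) (by simpa using h)
      rw [gg_one] at this; exact this.le
  · rcases (sq_nonneg x).eq_or_lt with h | h
    · simp only [gg, eta, ← h]; simp; linarith [hμ.2]
    · have := lt_of_sq hb hD hμ.1 (x := 0) (y := x) (by simpa using h)
      rw [gg_zero] at this; linarith [hμ.2]

lemma uni (hb : b ∈ Ioc (0 : ℝ) (1 / 100)) (hD : 0 < D) (hμ : μ ∈ Ioc (0 : ℝ) 2) :
    Unimodal (gg b D μ) 0 :=
  ⟨by norm_num, maps hb hD hμ, (gg_cont hD).continuousOn, gg_neg_one, gg_one,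
    fun x hx y hy h => lt_of_sq hb hD hμ.1 (by nlinarith [hx.2, hy.2]),
    fun x hx y hy h => lt_of_sq hb hD hμ.1 (by nlinarith [hx.1, hy.1])⟩

lemma iter_deriv (hD : 0 < D) (k : ℕ) (y : ℝ) : HasDerivAt (gg b D μ)^[k]
    (∏ j ∈ Finset.range k, -(μ * (2 * (gg b D μ)^[j] y * (1 + b * ww D ((gg b D μ)^[j] y))))) y := by
  induction k with
  | zero => simpa using hasDerivAt_id y
  | succ k ih =>
    rw [Function.iterate_succ', Finset.prod_range_succ, mul_comm]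
    exact (gg_deriv hD _).comp y ih

lemma sign_prod' (s : Finset ℕ) (f : ℕ → ℝ) :
    SignType.sign (∏ j ∈ s, f j) = ∏ j ∈ s, SignType.sign (f j) := by
  induction s using Finset.induction_on with
  | empty => simp
  | insert a s h ih => rw [Finset.prod_insert h, Finset.prod_insert h, sign_mul, ih]

lemma coef (hb : b ∈ Ioc (0 : ℝ) (1 / 100)) (hD : 0 < D) (hμ : 0 < μ) (i : ℕ)
    (h : ∀ j ≤ i, (gg b D μ)^[j] (μ - 1) ≠ 0) :
    Coef (gg b D μ) 0 i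
      (∏ j ∈ Finset.range (i + 1), -SignType.sign ((gg b D μ)^[j] (μ - 1))) := by
  unfold Coef
  rw [gg_zero]
  apply Filter.Eventually.filter_mono nhdsWithin_le_nhds
  have e : ∀ᶠ y in 𝓝 (μ - 1), ∀ j ∈ Finset.range (i + 1),
      SignType.sign ((gg b D μ)^[j] y) = SignType.sign ((gg b D μ)^[j] (μ - 1)) := by
    rw [Filter.eventually_all_finset]
    intro j hj
    have hc := ((gg_cont (b := b) (μ := μ) hD).iterate j).continuousAt (x := μ - 1)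
    rcases (h j (by simpa [Nat.lt_succ_iff] using hj)).lt_or_gt with h0 | h0
    · filter_upwards [hc.eventually (gt_mem_nhds h0)] with y hy
      rw [sign_neg hy, sign_neg h0]
    · filter_upwards [hc.eventually (lt_mem_nhds h0)] with y hy
      rw [sign_pos hy, sign_pos h0]
  filter_upwards [e] with y hy
  rw [(iter_deriv hD (i + 1) y).deriv]
  rw [sign_prod']
  apply Finset.prod_congr rfl
  intro j hj
  have hw : 0 < 1 + b * ww D ((gg b D μ)^[j] y) := by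
    nlinarith [ww_ge hD ((gg b D μ)^[j] y), hb.1, hb.2]
  rw [Left.sign_neg, sign_mul, sign_mul, sign_mul, sign_pos hμ, sign_pos hw,
    sign_pos (show (0 : ℝ) < 2 by norm_num), hy j hj]
  simp

lemma expand (hb : b ∈ Ioc (0 : ℝ) (1 / 100)) (hD : 0 < D) (hD1 : D ≤ 1 / 100)
    (hμ : μ ∈ Icc (19 / 10 : ℝ) 2) {x y : ℝ} (h1 : 6 / 10 ≤ x) (h2 : x ≤ y) (h3 : y ≤ 1) :
    2 * (y - x) ≤ gg b D μ x - gg b D μ y ∧ gg b D μ x - gg b D μ y ≤ 5 * (y - x) := by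
  have a := W_ge hD x y
  have c := W_le hD hD1 (x := x) (y := y) (by nlinarith) (by nlinarith)
  rw [diff hD]
  generalize (D - D * (x ^ 2 + y ^ 2) - x ^ 2 * y ^ 2) / ((D + x ^ 2) * (D + y ^ 2)) = W at a c
  have w1 : 99 / 100 ≤ 1 + b * W := by nlinarith [hb.1, hb.2]
  have w2 : 1 + b * W ≤ 1 := by nlinarith [hb.1, hb.2]
  have e : μ * ((y ^ 2 - x ^ 2) * (1 + b * W)) = (y - x) * (μ * ((y + x) * (1 + b * W))) := by ring
  have l1 : 118 / 100 ≤ (y + x) * (1 + b * W) := by nlinarith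
  have l2 : (y + x) * (1 + b * W) ≤ 2 := by nlinarith
  have m1 : 2 ≤ μ * ((y + x) * (1 + b * W)) := by nlinarith [hμ.1]
  have m2 : μ * ((y + x) * (1 + b * W)) ≤ 5 := by nlinarith [hμ.1, hμ.2]
  rw [e]
  constructor <;> nlinarith

lemma gg_even (x : ℝ) : gg b D μ (-x) = gg b D μ x := by simp [gg, eta]

lemma eta_mem (hb : b ∈ Ioc (0 : ℝ) (1 / 100)) (hD : 0 < D) {x : ℝ} (hx : x ∈ Icc (-1 : ℝ) 1) :
    eta b D x ∈ Icc (0 : ℝ) (b * (1 - x ^ 2)) := by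
  have h1 : 0 ≤ 1 - x ^ 2 := by nlinarith [hx.1, hx.2]
  have := phi_mem hD x
  unfold eta
  exact ⟨mul_nonneg hb.1.le (mul_nonneg h1 this.1),
    mul_le_mul_of_nonneg_left (by nlinarith [this.2]) hb.1.le⟩

/-- the critical orbit has the shape `+ - … - (a)` with last point `-a` -/
lemma shape (hb : b ∈ Ioc (0 : ℝ) (1 / 100)) (hD : 0 < D) (hμ : μ ∈ Icc (19 / 10 : ℝ) 2)
    {n : ℕ} (hn : 1 ≤ n) {a : ℝ} (ha : 0 < a)
    (hM : (Finset.Icc 1 n).sup' ⟨1, by simpa using hn⟩ (fun j => (gg b D μ)^[j] (μ - 1)) = -a) :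
    (gg b D μ)^[n] (μ - 1) = -a ∧
      ∀ j, 1 ≤ j → j < n → (gg b D μ)^[j] (μ - 1) ∈ Icc (-1 : ℝ) (-65 / 100) := by
  have hμ' : μ ∈ Ioc (0 : ℝ) 2 := ⟨by linarith [hμ.1], hμ.2⟩
  have hI : ∀ j, (gg b D μ)^[j] (μ - 1) ∈ Icc (-1 : ℝ) 1 := fun j =>
    (maps hb hD hμ').iterate j ⟨by linarith [hμ.1], by linarith [hμ.2]⟩
  have hle : ∀ j, 1 ≤ j → j ≤ n → (gg b D μ)^[j] (μ - 1) ≤ -a := fun j h1 h2 =>
    hM ▸ Finset.le_sup' (fun j => (gg b D μ)^[j] (μ - 1)) (Finset.mem_Icc.mpr ⟨h1, h2⟩)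
  have up : ∀ x ∈ Icc (-1 : ℝ) 1, x ≤ 0 → x ≤ gg b D μ x := by
    intro x hx h0
    have := (eta_mem hb hD hx).2
    have h1 : 0 ≤ 1 + x := by linarith [hx.1]
    have h2 : 1 + x ≤ 1 - x ^ 2 := by nlinarith
    have h3 : 99 / 100 * (1 + x) ≤ 1 - (x ^ 2 + eta b D x) := by nlinarith [hb.1, hb.2]
    unfold gg
    nlinarith [hμ.1]
  have mono : ∀ d j, 1 ≤ j → j + d ≤ n →
      (gg b D μ)^[j] (μ - 1) ≤ (gg b D μ)^[j + d] (μ - 1) := by
    intro d j h1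
    induction d with
    | zero => simp
    | succ d ih =>
      intro h2
      rw [← add_assoc, Function.iterate_succ_apply']
      exact (ih (by omega)).trans (up _ (hI _) (by linarith [hle (j + d) (by omega) (by omega)]))
  constructor
  · obtain ⟨j, hj, e⟩ := Finset.exists_mem_eq_sup' (s := Finset.Icc 1 n) ⟨1, by simpa using hn⟩
      (fun j => (gg b D μ)^[j] (μ - 1))
    rw [Finset.mem_Icc] at hj
    have := mono (n - j) j hj.1 (by omega)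
    rw [show j + (n - j) = n by omega, ← e, hM] at this
    exact le_antisymm (hle n hn le_rfl) this
  · intro j h1 h2
    refine ⟨(hI j).1, ?_⟩
    have a1 := hle (j + 1) (by omega) h2
    have a2 := hle j h1 h2.le
    rw [Function.iterate_succ_apply'] at a1
    have a3 := (eta_mem hb hD (hI j)).2
    generalize (gg b D μ)^[j] (μ - 1) = x at *
    unfold gg at a1
    have a4 : eta b D x ≤ 1 / 100 := by nlinarith [hb.1, hb.2, sq_nonneg x]
    by_contra hc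
    have : x ^ 2 + eta b D x ≤ 44 / 100 := by nlinarith
    nlinarith [hμ.1]

lemma second (hb : b ∈ Ioc (0 : ℝ) (1 / 100)) (hD : 0 < D) (hD1 : D ≤ 1 / 100)
    (hμ : μ ∈ Icc (19 / 10 : ℝ) 2) {n : ℕ} {u : ℝ} (hu : 0 ≤ u) (hu1 : 5 ^ n * u ≤ 1 / 100)
    (h : ∀ j, 1 ≤ j → j < n → (gg b D μ)^[j] (μ - 1) ∈ Icc (-1 : ℝ) (-65 / 100)) :
    ∀ j, 1 ≤ j → j ≤ n →
      2 ^ j * u ≤ (gg b D μ)^[j] (μ - 1 - u) - (gg b D μ)^[j] (μ - 1) ∧
      (gg b D μ)^[j] (μ - 1 - u) - (gg b D μ)^[j] (μ - 1) ≤ 5 ^ j * u := by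
  have sm : ∀ j ≤ n, 5 ^ j * u ≤ 1 / 100 := fun j hj =>
    (mul_le_mul_of_nonneg_right (pow_le_pow_right₀ (by norm_num) hj) hu).trans hu1
  intro j h1
  induction j, h1 using Nat.le_induction with
  | base =>
    intro hn
    have := sm 0 (by omega)
    have e := expand hb hD hD1 hμ (x := μ - 1 - u) (y := μ - 1) (by linarith [hμ.1])
      (by linarith) (by linarith [hμ.2])
    simp only [Function.iterate_one, pow_one]
    constructor <;> linarith [e.1, e.2]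
  | succ j h1 ih =>
    intro hn
    obtain ⟨i1, i2⟩ := ih (by omega)
    have hp := h j h1 hn
    have s := sm j (by omega)
    have z : 0 ≤ 2 ^ j * u := by positivity
    rw [Function.iterate_succ_apply', Function.iterate_succ_apply', pow_succ, pow_succ]
    have e := expand hb hD hD1 hμ (x := -(gg b D μ)^[j] (μ - 1 - u))
      (y := -(gg b D μ)^[j] (μ - 1)) (by linarith [hp.2]) (by linarith) (by linarith [hp.1])
    rw [gg_even, gg_even] at e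
    constructor <;> linarith [e.1, e.2]

/-- itinerary of the critical value up to time `2 n`, and the point at time `2 n + 1` -/
lemma itin (hb : b ∈ Ioc (0 : ℝ) (1 / 100)) (hD : 0 < D) (hD1 : D ≤ 1 / 100)
    (hμ : μ ∈ Icc (19 / 10 : ℝ) 2) {n : ℕ} (hn : 1 ≤ n) {a : ℝ} (ha : 0 < a) (ha1 : a ≤ 1)
    (hM : (Finset.Icc 1 n).sup' ⟨1, by simpa using hn⟩ (fun j => (gg b D μ)^[j] (μ - 1)) = -a)
    (hu1 : 5 ^ n * (μ * (a ^ 2 + eta b D a)) ≤ 1 / 100) :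
    (∀ j ≤ 2 * n, SignType.sign ((gg b D μ)^[j] (μ - 1)) = if j = 0 ∨ j = n + 1 then 1 else -1) ∧
    2 ^ n * (μ * (a ^ 2 + eta b D a)) ≤ (gg b D μ)^[2 * n + 1] (μ - 1) + a ∧
    (gg b D μ)^[2 * n + 1] (μ - 1) + a ≤ 5 ^ n * (μ * (a ^ 2 + eta b D a)) := by
  obtain ⟨s1, s2⟩ := shape hb hD hμ hn ha hM
  have hu : 0 ≤ μ * (a ^ 2 + eta b D a) := mul_nonneg (by linarith [hμ.1])
    (add_nonneg (sq_nonneg a) (eta_mem hb hD ⟨by linarith, ha1⟩).1)
  have s3 := second hb hD hD1 hμ hu hu1 s2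
  have e : ∀ j, (gg b D μ)^[j + (n + 1)] (μ - 1)
      = (gg b D μ)^[j] (μ - 1 - μ * (a ^ 2 + eta b D a)) := by
    intro j
    rw [Function.iterate_add_apply, Function.iterate_succ_apply', s1, gg_even]; rfl
  have sm : ∀ j ≤ n, 5 ^ j * (μ * (a ^ 2 + eta b D a)) ≤ 1 / 100 := fun j hj =>
    (mul_le_mul_of_nonneg_right (pow_le_pow_right₀ (by norm_num) hj) hu).trans hu1
  refine ⟨fun j hj => ?_, ?_⟩
  · split_ifs with h
    · rcases h with rfl | rfl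
      · exact sign_pos (by simp; linarith [hμ.1])
      · have := e 0
        rw [zero_add] at this
        rw [this]
        have := sm 0 (by omega)
        exact sign_pos (by simp only [Function.iterate_zero, id]; linarith [hμ.1])
    · apply sign_neg
      rcases lt_trichotomy j n with h1 | rfl | h1
      · linarith [(s2 j (by omega) h1).2]
      · linarith
      · obtain ⟨i, rfl⟩ : ∃ i, j = i + (n + 1) := ⟨j - (n + 1), by omega⟩
        rw [e]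
        linarith [(s3 i (by omega) (by omega)).2, sm i (by omega), (s2 i (by omega) (by omega)).2]
  · rw [show 2 * n + 1 = n + (n + 1) by ring, e]
    have := s3 n hn le_rfl
    rw [s1] at this
    constructor <;> linarith [this.1, this.2]

lemma prod_itin (n : ℕ) (hn : 1 ≤ n) : ∏ j ∈ Finset.range (2 * n + 1),
    -(if j = 0 ∨ j = n + 1 then (1 : SignType) else -1) = 1 := by
  have h1 : ∀ m k, 1 ≤ k → (k + m ≤ n + 1 ∨ n + 1 < k) → ∏ j ∈ Finset.range m,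
      -(if k + j = 0 ∨ k + j = n + 1 then (1 : SignType) else -1) = 1 := by
    intro m k h h'
    apply Finset.prod_eq_one
    intro j hj
    rw [if_neg (by simp at hj; omega)]; simp
  obtain ⟨m, rfl⟩ : ∃ m, n = m + 1 := ⟨n - 1, by omega⟩
  rw [show 2 * (m + 1) + 1 = 1 + (m + 1) + 1 + m by ring, Finset.prod_range_add,
    Finset.prod_range_succ, Finset.prod_range_add, h1 _ _ (by omega) (by omega),
    h1 _ _ (by omega) (by omega), if_pos (Or.inr (by ring))]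
  simp

lemma cont_orbit (hD : 0 < D) (j : ℕ) : Continuous fun μ => (gg b D μ)^[j] (μ - 1) := by
  induction j with
  | zero => simp only [Function.iterate_zero, id]; fun_prop
  | succ j ih =>
    simp only [Function.iterate_succ_apply']
    have he : Continuous (eta b D) :=
      continuous_iff_continuousAt.mpr fun x => (eta_deriv hD x).continuousAt
    exact (continuous_id.sub continuous_const).sub
      (continuous_id.mul ((ih.pow 2).add (he.comp ih)))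

lemma klt (hb : b ∈ Ioc (0 : ℝ) (1 / 100)) (hD : 0 < D) {μ₁ μ₂ : ℝ} (h1 : 0 < μ₁) (h2 : 0 < μ₂)
    {n : ℕ} (hn : 1 ≤ n)
    (i1 : ∀ j ≤ 2 * n, SignType.sign ((gg b D μ₁)^[j] (μ₁ - 1)) =
      if j = 0 ∨ j = n + 1 then 1 else -1)
    (i2 : ∀ j ≤ 2 * n, SignType.sign ((gg b D μ₂)^[j] (μ₂ - 1)) =
      if j = 0 ∨ j = n + 1 then 1 else -1)
    (p1 : 0 < (gg b D μ₁)^[2 * n + 1] (μ₁ - 1)) (p2 : (gg b D μ₂)^[2 * n + 1] (μ₂ - 1) < 0) :
    KLt (gg b D μ₁) (gg b D μ₂) 0 := by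
  have ne : ∀ {μ : ℝ}, (∀ j ≤ 2 * n, SignType.sign ((gg b D μ)^[j] (μ - 1)) =
      if j = 0 ∨ j = n + 1 then 1 else -1) → ∀ j ≤ 2 * n, (gg b D μ)^[j] (μ - 1) ≠ 0 := by
    intro μ h j hj h0
    have := h j hj
    rw [h0, sign_zero] at this
    split_ifs at this
  refine ⟨2 * n + 1, fun i hi => ⟨_, coef hb hD h1 i fun j hj => ne i1 j (by omega), ?_⟩, -1, 1,
    by decide, ?_, ?_⟩
  · have := coef hb hD h2 i fun j hj => ne i2 j (by omega)
    rwa [Finset.prod_congr rfl fun j hj => by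
      rw [i2 j (by simp at hj; omega), ← i1 j (by simp at hj; omega)]] at this
  · have := coef hb hD h1 (2 * n + 1) fun j hj => by
      rcases hj.eq_or_lt with rfl | h
      · exact p1.ne'
      · exact ne i1 j (by omega)
    rw [Finset.prod_range_succ, Finset.prod_congr rfl fun j hj => by
      rw [i1 j (by simp at hj; omega)], prod_itin n hn, sign_pos p1, one_mul] at this
    exact this
  · have := coef hb hD h2 (2 * n + 1) fun j hj => by
      rcases hj.eq_or_lt with rfl | h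
      · exact p2.ne
      · exact ne i2 j (by omega)
    rw [Finset.prod_range_succ, Finset.prod_congr rfl fun j hj => by
      rw [i2 j (by simp at hj; omega)], prod_itin n hn, sign_neg p2, one_mul, neg_neg] at this
    exact this

lemma ivt (hD : 0 < D) {n : ℕ} (hn : 1 ≤ n) {m t : ℝ} (hm : m ≤ 2) (ht : -1 ≤ t)
    (h : t ≤ (Finset.Icc 1 n).sup' ⟨1, by simpa using hn⟩ (fun j => (gg b D m)^[j] (m - 1))) :
    ∃ μ ∈ Icc m 2,
      (Finset.Icc 1 n).sup' ⟨1, by simpa using hn⟩ (fun j => (gg b D μ)^[j] (μ - 1)) = t := by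
  have hc : Continuous fun μ => (Finset.Icc 1 n).sup' ⟨1, by simpa using hn⟩
      (fun j => (gg b D μ)^[j] (μ - 1)) :=
    Continuous.finset_sup'_apply _ fun j _ => cont_orbit hD j
  apply intermediate_value_Icc' hm hc.continuousOn
  refine ⟨le_trans ?_ ht, h⟩
  apply Finset.sup'_le
  intro j hj
  obtain ⟨i, rfl⟩ : ∃ i, j = i + 1 := ⟨j - 1, by simp at hj; omega⟩
  rw [Function.iterate_succ_apply, show (2 : ℝ) - 1 = 1 by norm_num, gg_one,
    Function.iterate_fixed gg_neg_one]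

lemma eta'_le {δ κ : ℝ} (hδ : 0 < δ) (hκ : 0 < κ) (hδ1 : δ ≤ 1) {x : ℝ} (hx : x ∈ Icc (-1 : ℝ) 1) :
    |κ * δ * (2 * x * ww (δ ^ 2) x)| ≤ 3 * κ := by
  have hx2 : x ^ 2 ≤ 1 := by nlinarith [hx.1, hx.2]
  have hp := phi_mem (D := δ ^ 2) (by positivity) x
  have hax : |x| ≤ 1 := abs_le.mpr hx
  have h1 : |δ * (2 * x * ((1 - x ^ 2) * δ ^ 2 / (δ ^ 2 + x ^ 2) ^ 2))| ≤ 1 := by
    have hpos : 0 < δ ^ 2 + x ^ 2 := by positivity
    have e : δ * (2 * x * ((1 - x ^ 2) * δ ^ 2 / (δ ^ 2 + x ^ 2) ^ 2)) =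
        (2 * δ * x / (δ ^ 2 + x ^ 2)) * ((1 - x ^ 2) * (δ ^ 2 / (δ ^ 2 + x ^ 2))) := by
      field_simp
    have a1 : |2 * δ * x / (δ ^ 2 + x ^ 2)| ≤ 1 := by
      rw [abs_le, le_div_iff₀ hpos, div_le_one hpos]
      constructor <;> nlinarith [sq_nonneg (δ - x), sq_nonneg (δ + x)]
    have a2 : δ ^ 2 / (δ ^ 2 + x ^ 2) ≤ 1 := by rw [div_le_one hpos]; nlinarith
    have a3 : 0 ≤ δ ^ 2 / (δ ^ 2 + x ^ 2) := by positivity
    have a4 : |(1 - x ^ 2) * (δ ^ 2 / (δ ^ 2 + x ^ 2))| ≤ 1 := by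
      rw [abs_le]; constructor <;> nlinarith [sq_nonneg x]
    rw [e, abs_mul]
    exact mul_le_one₀ a1 (abs_nonneg _) a4
  have h2 : |δ * (2 * x * (x ^ 2 / (δ ^ 2 + x ^ 2)))| ≤ 2 := by
    rw [abs_mul, abs_mul, abs_mul, abs_of_pos hδ, abs_of_nonneg hp.1, abs_two]
    have : |x| * (x ^ 2 / (δ ^ 2 + x ^ 2)) ≤ 1 := mul_le_one₀ hax hp.1 hp.2
    have h0 : 0 ≤ |x| * (x ^ 2 / (δ ^ 2 + x ^ 2)) := mul_nonneg (abs_nonneg _) hp.1
    nlinarith
  have e : κ * δ * (2 * x * ww (δ ^ 2) x) =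
      κ * (δ * (2 * x * ((1 - x ^ 2) * δ ^ 2 / (δ ^ 2 + x ^ 2) ^ 2))
        - δ * (2 * x * (x ^ 2 / (δ ^ 2 + x ^ 2)))) := by
    unfold ww; ring
  rw [e, abs_mul, abs_of_pos hκ, mul_comm 3 κ]
  exact mul_le_mul_of_nonneg_left ((abs_sub _ _).trans (by linarith)) hκ.le

end

theorem result (ε : ℝ) (hε : 0 < ε) : ∃ G : ℝ → ℝ → ℝ,
    ContDiff ℝ 1 (fun p : ℝ × ℝ => G p.2 p.1) ∧
    (∀ μ ∈ Ioc (0 : ℝ) 2, Unimodal (G μ) 0) ∧
    (∃ ε' < ε, ∀ x ∈ Icc (-1 : ℝ) 1, ∀ μ ∈ Ioc (0 : ℝ) 2,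
      |G μ x - quad μ x| + |deriv (fun y => G μ y - quad μ y) x|
        + |deriv (fun m => G m x - quad m x) μ| ≤ ε') ∧
    ∃ μ₀ μ₁ μ₂ : ℝ, 0 < μ₀ ∧ μ₀ < μ₁ ∧ μ₁ < μ₂ ∧ μ₂ ≤ 2 ∧
      KLt (G μ₁) (G μ₀) 0 ∧ KLt (G μ₁) (G μ₂) 0 := by
  obtain ⟨κ, hκ, hκ1, hκ2⟩ : ∃ κ : ℝ, 0 < κ ∧ κ ≤ ε / 10 ∧ κ ≤ 1 / 100 :=
    ⟨min (ε / 10) (1 / 100), by positivity, min_le_left _ _, min_le_right _ _⟩
  obtain ⟨n, hn2, hn⟩ : ∃ n : ℕ, 2 ≤ n ∧ 2 / κ < 2 ^ n := by
    obtain ⟨n, hn⟩ := pow_unbounded_of_one_lt (2 / κ) (show (1 : ℝ) < 2 by norm_num)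
    exact ⟨n + 2, by omega, hn.trans_le (pow_le_pow_right₀ (by norm_num) (by omega))⟩
  rw [div_lt_iff₀ hκ] at hn
  obtain ⟨d, hd, hd5⟩ : ∃ d : ℝ, 0 < d ∧ 5 ^ n * d = 1 / 100 :=
    ⟨1 / (100 * 5 ^ n), by positivity, by field_simp⟩
  have hd1 : d ≤ 1 / 100 := by
    have : (1 : ℝ) ≤ 5 ^ n := one_le_pow₀ (by norm_num)
    nlinarith
  have hδ1 : d ^ 2 ≤ d / 100 := by nlinarith
  have hD : 0 < (d ^ 2) ^ 2 := by positivity
  have hD1 : (d ^ 2) ^ 2 ≤ 1 / 100 := by nlinarith [sq_nonneg d]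
  have hbk : κ * d ^ 2 ≤ κ := by nlinarith
  have hb : κ * d ^ 2 ∈ Ioc (0 : ℝ) (1 / 100) := ⟨by positivity, by linarith⟩
  refine ⟨gg (κ * d ^ 2) ((d ^ 2) ^ 2), ?_, fun μ hμ => uni hb hD hμ, ⟨9 * κ, by linarith, ?_⟩, ?_⟩
  · unfold gg eta
    fun_prop (disch := intro x; positivity)
  · intro x hx μ hμ
    have e1 : (fun y => gg (κ * d ^ 2) ((d ^ 2) ^ 2) μ y - quad μ y)
        = fun y => -(μ * eta (κ * d ^ 2) ((d ^ 2) ^ 2) y) := by
      funext y; unfold gg quad; ring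
    have e2 : (fun m => gg (κ * d ^ 2) ((d ^ 2) ^ 2) m x - quad m x)
        = fun m => -(m * eta (κ * d ^ 2) ((d ^ 2) ^ 2) x) := by
      funext y; unfold gg quad; ring
    have d1 := (((eta_deriv (b := κ * d ^ 2) hD x).const_mul μ).neg).deriv
    have d2 := (((hasDerivAt_id μ).mul_const (eta (κ * d ^ 2) ((d ^ 2) ^ 2) x)).neg).deriv
    have e0 := congrFun e1 x
    have m := eta_mem hb hD hx
    have m2 : eta (κ * d ^ 2) ((d ^ 2) ^ 2) x ≤ κ := by nlinarith [m.2, hb.1, sq_nonneg x]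
    have m3 := eta'_le (δ := d ^ 2) (by positivity) hκ (by linarith) hx
    rw [e0, e1, e2]
    erw [d1, d2]
    rw [abs_neg, abs_neg, abs_neg, abs_mul μ, abs_mul μ, one_mul, abs_of_pos hμ.1,
      abs_of_nonneg m.1]
    nlinarith [hμ.1, hμ.2, m.1, abs_nonneg (κ * d ^ 2 * (2 * x * ww ((d ^ 2) ^ 2) x))]
  · have hn1 : 1 ≤ n := by omega
    obtain ⟨μ₁, h1, e1⟩ := ivt (b := κ * d ^ 2) hD hn1 (m := 19 / 10) (t := -d ^ 2) (by norm_num)
      (by linarith) (by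
        refine le_trans ?_ (Finset.le_sup' (fun j => (gg (κ * d ^ 2) ((d ^ 2) ^ 2) (19 / 10))^[j]
          (19 / 10 - 1)) (Finset.mem_Icc.mpr ⟨show 1 ≤ 2 by norm_num, hn2⟩))
        have a := eta_mem hb hD (x := 19 / 10 - 1) ⟨by norm_num, by norm_num⟩
        have hx : gg (κ * d ^ 2) ((d ^ 2) ^ 2) (19 / 10) (19 / 10 - 1) ∈
            Icc (-65 / 100 : ℝ) (-63 / 100) := by
          unfold gg; constructor <;> nlinarith [a.1, a.2, hb.2]
        show -d ^ 2 ≤ gg _ _ _ (gg _ _ _ _)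
        generalize gg (κ * d ^ 2) ((d ^ 2) ^ 2) (19 / 10) (19 / 10 - 1) = y at hx
        have a' := eta_mem hb hD (x := y) ⟨by linarith [hx.1], by linarith [hx.2]⟩
        unfold gg
        nlinarith [a'.2, hx.1, hx.2, hb.1, hb.2, sq_nonneg d, sq_nonneg y])
    obtain ⟨μ₂, h2, e2⟩ := ivt (b := κ * d ^ 2) hD hn1 (m := μ₁) (t := -d) h1.2
      (by linarith) (by rw [e1]; linarith)
    have h2' : μ₂ ∈ Icc (19 / 10 : ℝ) 2 := ⟨h1.1.trans h2.1, h2.2⟩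
    have h5 : (0 : ℝ) < 5 ^ n := by positivity
    have a1 := eta_mem hb hD (x := d ^ 2) ⟨by nlinarith, by linarith⟩
    have a2 := eta_mem hb hD (x := d) ⟨by linarith, by linarith⟩
    have u1 : μ₁ * ((d ^ 2) ^ 2 + eta (κ * d ^ 2) ((d ^ 2) ^ 2) (d ^ 2)) ≤ d := by
      have : (d ^ 2) ^ 2 + eta (κ * d ^ 2) ((d ^ 2) ^ 2) (d ^ 2) ≤ d / 2 := by
        nlinarith [a1.2, sq_nonneg (d ^ 2), hb.1, sq_nonneg d]
      nlinarith [h1.1, h1.2, a1.1, sq_nonneg (d ^ 2)]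
    have u2 : μ₂ * (d ^ 2 + eta (κ * d ^ 2) ((d ^ 2) ^ 2) d) ≤ 3 * d * d := by
      have : d ^ 2 + eta (κ * d ^ 2) ((d ^ 2) ^ 2) d ≤ 3 / 2 * d * d := by
        nlinarith [a2.2, sq_nonneg d, hb.1]
      nlinarith [h2'.1, h2'.2, a2.1, sq_nonneg d]
    obtain ⟨i1, p1, -⟩ := itin hb hD hD1 h1 hn1 (a := d ^ 2) (by positivity) (by linarith) e1
      (by nlinarith)
    obtain ⟨i2, -, p2⟩ := itin hb hD hD1 h2' hn1 (a := d) hd (by linarith) e2
      (by nlinarith)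
    have q1 : 0 < (gg (κ * d ^ 2) ((d ^ 2) ^ 2) μ₁)^[2 * n + 1] (μ₁ - 1) := by
      have e : eta (κ * d ^ 2) ((d ^ 2) ^ 2) (d ^ 2) = κ * d ^ 2 * (1 - (d ^ 2) ^ 2) / 2 := by
        unfold eta; field_simp; ring
      have l : κ * d ^ 2 / 2 < μ₁ * ((d ^ 2) ^ 2 + eta (κ * d ^ 2) ((d ^ 2) ^ 2) (d ^ 2)) := by
        have : κ * d ^ 2 * (4 / 10) ≤ eta (κ * d ^ 2) ((d ^ 2) ^ 2) (d ^ 2) := by
          rw [e]; nlinarith [hb.1]
        nlinarith [h1.1, hb.1]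
      have : 2 ^ n * (κ * d ^ 2 / 2) ≤
          2 ^ n * (μ₁ * ((d ^ 2) ^ 2 + eta (κ * d ^ 2) ((d ^ 2) ^ 2) (d ^ 2))) :=
        mul_le_mul_of_nonneg_left l.le (by positivity)
      have : d ^ 2 < 2 ^ n * (κ * d ^ 2 / 2) := by nlinarith [sq_pos_of_pos hd]
      linarith
    have q2 : (gg (κ * d ^ 2) ((d ^ 2) ^ 2) μ₂)^[2 * n + 1] (μ₂ - 1) < 0 := by
      have : 5 ^ n * (μ₂ * (d ^ 2 + eta (κ * d ^ 2) ((d ^ 2) ^ 2) d)) ≤ 5 ^ n * (3 * d * d) :=
        mul_le_mul_of_nonneg_left u2 h5.le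
      have e : 5 ^ n * (3 * d * d) = 3 * d * (5 ^ n * d) := by ring
      rw [e, hd5] at this
      linarith
    refine ⟨1 / 2, μ₁, μ₂, by norm_num, by linarith [h1.1], lt_of_le_of_ne h2.1 ?_, h2.2, ?_,
      klt hb hD (by linarith [h1.1]) (by linarith [h2'.1]) hn1 i1 i2 q1 q2⟩
    · rintro rfl
      linarith
    · refine ⟨0, fun i hi => absurd hi (by omega), -1, 1, by decide, ?_, ?_⟩
      · have := coef hb hD (μ := μ₁) (by linarith [h1.1]) 0 fun j hj => by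
          obtain rfl : j = 0 := by omega
          simp only [Function.iterate_zero, id]; linarith [h1.1]
        simpa [sign_pos (show 0 < μ₁ - 1 by linarith [h1.1])] using this
      · have := coef hb hD (μ := 1 / 2) (by norm_num) 0 fun j hj => by
          obtain rfl : j = 0 := by omega
          simp only [Function.iterate_zero, id]; norm_num
        rw [zero_add, Finset.prod_range_one, Function.iterate_zero, id,
          sign_neg (show (1 / 2 : ℝ) - 1 < 0 by norm_num), neg_neg] at this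
        exact this

end Pool.Agent.Results.MP_ace4dd_an.NotMonotone
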